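import Pool.Agent.Bow.Assembly
import Pool.Agent.Bow.Perron
import Pool.Agent.Bow.Trace
import Pool.Agent.Bow.Theta
import Pool.Agent.Bow.TupCount
import Pool.Agent.Bow.TupK
import Pool.Agent.Bow.TupX
import Pool.Agent.Bow.Cut
import Pool.Agent.Bow.Low
import Pool.Agent.Bow.Max
import Pool.Agent.Bow.Spec
import Pool.Agent.Bow.BowCount
import Pool.Agent.Bow.Num
import Pool.Agent.Bow.Iso
import Pool.Agent.Bow.Fin

/-!
# MP_b63b1f_co, Q1: spectral supersaturation for the bowtie over the full range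

The answer to Q1 is YES.  The three objects of the statement are `largestEigenvalue`,
`bowtieCount` and `Kq` below.
-/

namespace Pool.Agent.Results.MP_b63b1f_co.FullRange

open scoped Classical

/-- The bowtie: the triangles `0 1 2` and `0 3 4`, which share exactly the vertex `0`. -/
def bowtie : SimpleGraph (Fin 5) :=
  SimpleGraph.fromRel (fun a b : Fin 5 =>
    (a = 0 ∧ b ≠ 0) ∨ (a = 1 ∧ b = 2) ∨ (a = 3 ∧ b = 4))

/-- The largest eigenvalue of the adjacency matrix of `G`. -/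
noncomputable def largestEigenvalue {V : Type*} [Fintype V] (G : SimpleGraph V) : ℝ :=
  sSup {μ : ℝ | ∃ x : V → ℝ, x ≠ 0 ∧ (G.adjMatrix ℝ).mulVec x = μ • x}

/-- The number of subgraphs of `G` isomorphic to the bowtie. -/
noncomputable def bowtieCount {V : Type*} [Fintype V] (G : SimpleGraph V) : ℕ :=
  G.copyCount bowtie

/-- `K^q_{s,t}`: the complete bipartite graph with parts `Fin s` and `Fin t`, together with the
edges `{2k, 2k+1}`, `k < q`, inside `Fin s`. -/
def Kq (s t q : ℕ) : SimpleGraph (Fin s ⊕ Fin t) :=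
  completeBipartiteGraph (Fin s) (Fin t) ⊔
    SimpleGraph.fromRel (fun u v => ∃ i j : Fin s, u = Sum.inl i ∧ v = Sum.inl j ∧
      ∃ k < q, i.1 = 2 * k ∧ j.1 = 2 * k + 1)

/-- Q1 of MP_b63b1f_co in the affirmative: for all large `n`, all `2 ≤ q ≤ ⌊(n+1)/4⌋` and every
graph `G` on `n` vertices whose largest eigenvalue is at least that of
`K^q_{⌈n/2⌉,⌊n/2⌋}`, the number of bowties is at least `C(q,2) ⌊n/2⌋`, with equality exactly for
`G` isomorphic to `K^q_{⌈n/2⌉,⌊n/2⌋}`. -/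
theorem result : ∃ n₀ : ℕ, ∀ n : ℕ, n₀ ≤ n → ∀ q : ℕ, 2 ≤ q → q ≤ (n + 1) / 4 →
    ∀ G : SimpleGraph (Fin n),
      largestEigenvalue (Kq ((n + 1) / 2) (n / 2) q) ≤ largestEigenvalue G →
        q.choose 2 * (n / 2) ≤ bowtieCount G ∧
        (bowtieCount G = q.choose 2 * (n / 2) ↔
          Nonempty (G ≃g Kq ((n + 1) / 2) (n / 2) q)) := by
  obtain ⟨n0, h⟩ := Pool.Agent.Bow.final_of Pool.Agent.Bow.perron Pool.Agent.Bow.trace_ineq
    Pool.Agent.Bow.theta_exists Pool.Agent.Bow.tup_eq Pool.Agent.Bow.tupK Pool.Agent.Bow.tupIso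
    Pool.Agent.Bow.tup_ge_triangles Pool.Agent.Bow.cut_exists Pool.Agent.Bow.low_in
    Pool.Agent.Bow.spec_bound Pool.Agent.Bow.bow Pool.Agent.Bow.numerics
    (Pool.Agent.Bow.final_config Pool.Agent.Bow.bow0 Pool.Agent.Bow.iso_K)
  exact ⟨n0, fun n hn q hq hq' G hG => h n hn q hq hq' G hG⟩

end Pool.Agent.Results.MP_b63b1f_co.FullRange
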